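import Pool.Agent.helper40.SU.SpecB

/-!
# Project su, row PRK: the quadratic form of one family
-/

set_option autoImplicit false

open Finset

namespace Pool.Agent.SU

theorem PRK_small (c ε : ℝ) (hc : 0 < c) (hε : 0 < ε) : ∃ K₀ : ℕ, ∀ K ≥ K₀, (K : ℝ) ^ (-c) ≤ ε := by
  have h1 := ((tendsto_rpow_neg_atTop hc).comp
    (tendsto_natCast_atTop_atTop (R := ℝ))).eventually (gt_mem_nhds hε)
  obtain ⟨K₀, hK₀⟩ := Filter.eventually_atTop.1 h1
  exact ⟨K₀, fun K hK => (hK₀ K hK).le⟩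

theorem PRK_wj (j : ℕ) : 0 ≤ wj j := by
  unfold wj
  positivity

theorem PRK_wj1 : wj 1 = 1 := by
  unfold wj om
  simp

theorem PRK_gw (D j : ℕ) : 0 ≤ gw D j := by
  unfold gw
  positivity

theorem PRK_gw1 (D : ℕ) : gw D 1 = 1 := by
  unfold gw
  simp

theorem PRK_cD (D : ℕ) : 0 ≤ cD D := by
  unfold cD
  positivity

theorem PRK_jac (a : ℤ) (b : ℕ) : |(jacobiSym a b : ℝ)| ≤ 1 := by
  rcases jacobiSym.trichotomy a b with h | h | h <;> simp [h]

theorem PRK_B11 (S : Finset ℕ) : Bj S 1 1 = ∑ D ∈ S, cD D := by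
  unfold Bj
  refine sum_congr rfl ?_
  intro D _
  rw [PRK_gw1, jacobiSym.one_right]
  simp

theorem PRK_Babs (S : Finset ℕ) (j g : ℕ) : |Bj S j g| ≤ ∑ D ∈ S, cD D * gw D j := by
  unfold Bj
  refine (abs_sum_le_sum_abs _ _).trans (sum_le_sum ?_)
  intro D _
  rw [abs_mul, abs_of_nonneg (mul_nonneg (PRK_cD D) (PRK_gw D j))]
  exact mul_le_of_le_one_right (mul_nonneg (PRK_cD D) (PRK_gw D j)) (PRK_jac _ _)

theorem PRK_low {c₀ C₀ : ℝ} {q D₀ Γ K : ℕ} {S : Finset ℕ} (hK : 1 ≤ K) (hΓ : 1 ≤ Γ) (hc : 0 < c₀)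
    (hF : Fam c₀ C₀ q D₀ Γ K S) : c₀ ^ 2 / (16 * Γ) ≤ (∑ D ∈ S, cD D) ^ 2 := by
  have hKR : (0 : ℝ) < K := by exact_mod_cast hK
  have hΓR : (0 : ℝ) < Γ := by exact_mod_cast hΓ
  have hsΓ : 0 < √(Γ : ℝ) := Real.sqrt_pos.2 hΓR
  have h1 : ∀ D ∈ S, 1 / (4 * √(Γ : ℝ) * (K : ℝ) ^ 2) ≤ cD D := by
    intro D hD
    have h2 := hF.hi D hD
    have h3 : 0 < D := lt_of_lt_of_le (by positivity) (hF.lo D hD)
    have h3R : (0 : ℝ) < D := by exact_mod_cast h3
    have h2R : (D : ℝ) ≤ 16 * Γ * (K : ℝ) ^ 4 := by exact_mod_cast h2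
    unfold cD
    refine one_div_le_one_div_of_le (Real.sqrt_pos.2 h3R) ?_
    rw [Real.sqrt_le_iff]
    refine ⟨by positivity, h2R.trans (le_of_eq ?_)⟩
    have h4 := Real.sq_sqrt hΓR.le
    calc 16 * (Γ : ℝ) * (K : ℝ) ^ 4 = 16 * (√(Γ : ℝ)) ^ 2 * (K : ℝ) ^ 4 := by rw [h4]
      _ = _ := by ring
  have h2 : c₀ / (4 * √(Γ : ℝ)) ≤ ∑ D ∈ S, cD D := by
    have h3 := card_nsmul_le_sum S (fun D => cD D) _ h1
    rw [nsmul_eq_mul] at h3
    refine le_trans ?_ h3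
    have h4 := mul_le_mul_of_nonneg_right hF.card_ge
      (show 0 ≤ 1 / (4 * √(Γ : ℝ) * (K : ℝ) ^ 2) by positivity)
    refine le_trans (le_of_eq ?_) h4
    field_simp
  have h3 : c₀ ^ 2 / (16 * Γ) = (c₀ / (4 * √(Γ : ℝ))) ^ 2 := by
    rw [div_pow, mul_pow, Real.sq_sqrt hΓR.le]
    norm_num
  rw [h3]
  exact pow_le_pow_left₀ (by positivity) h2 2

theorem PRK_up {c₀ C₀ : ℝ} {q D₀ Γ K : ℕ} {S : Finset ℕ} (hK : 1 ≤ K) (hΓ : 1 ≤ Γ)
    (hF : Fam c₀ C₀ q D₀ Γ K S) (j g : ℕ) :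
    Bj S j g ^ 2 ≤ 1 / (Γ * (K : ℝ) ^ 4) * ∑ D ∈ S, ∑ D' ∈ S, gw D j * gw D' j := by
  have hKR : (0 : ℝ) < K := by exact_mod_cast hK
  have hΓR : (0 : ℝ) < Γ := by exact_mod_cast hΓ
  have hsΓ : 0 < √(Γ : ℝ) := Real.sqrt_pos.2 hΓR
  have h1 : ∀ D ∈ S, cD D ≤ 1 / (√(Γ : ℝ) * (K : ℝ) ^ 2) := by
    intro D hD
    have h2 := hF.lo D hD
    have h2R : (Γ : ℝ) * (K : ℝ) ^ 4 ≤ D := by exact_mod_cast h2
    unfold cD
    refine one_div_le_one_div_of_le (by positivity) ?_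
    refine Real.le_sqrt_of_sq_le (le_trans (le_of_eq ?_) h2R)
    rw [mul_pow, Real.sq_sqrt hΓR.le]
    ring
  have h2 : |Bj S j g| ≤ 1 / (√(Γ : ℝ) * (K : ℝ) ^ 2) * ∑ D ∈ S, gw D j := by
    refine (PRK_Babs S j g).trans ?_
    rw [mul_sum]
    exact sum_le_sum fun D hD => mul_le_mul_of_nonneg_right (h1 D hD) (PRK_gw D j)
  have h3 : Bj S j g ^ 2 ≤ (1 / (√(Γ : ℝ) * (K : ℝ) ^ 2) * ∑ D ∈ S, gw D j) ^ 2 := by
    rw [← sq_abs (Bj S j g)]
    exact pow_le_pow_left₀ (abs_nonneg _) h2 2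
  refine h3.trans (le_of_eq ?_)
  rw [mul_pow, div_pow, mul_pow, Real.sq_sqrt hΓR.le, sq (∑ D ∈ S, gw D j), sum_mul_sum]
  ring

theorem PRK_harm (q n : ℕ) : ∑ g ∈ cop q n, 1 / (g : ℝ) ≤ 1 + Real.log n := by
  have h1 : ∑ g ∈ cop q n, 1 / (g : ℝ) ≤ ∑ g ∈ Icc 1 n, 1 / (g : ℝ) :=
    sum_le_sum_of_subset_of_nonneg (filter_subset _ _) (fun g _ _ => by positivity)
  have h2 := harmonic_le_one_add_log n
  rw [harmonic_eq_sum_Icc] at h2
  push_cast at h2
  refine h1.trans (le_trans (le_of_eq ?_) h2)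
  exact sum_congr rfl fun g _ => one_div _

theorem PRK (hJBG : JBG_stmt) (hPWL : PWL_stmt) (hSML : SML_stmt) : PRK_stmt := by
  intro c₀ C₀ η hc₀ hC₀ hη
  obtain ⟨Z1, hZ1⟩ := hJBG
  obtain ⟨Z2, hZ2⟩ := hPWL
  obtain ⟨Z3, hZ3⟩ := hSML
  obtain ⟨Z4, hZ4⟩ := PRK_small (9 / 50) (η / 4 * (c₀ ^ 2 / 16) / (200 * (2 * C₀ + 1))) (by norm_num)
    (by positivity)
  refine ⟨max (max Z1 Z2) (max Z3 Z4), ?_⟩
  intro Z hZ q D₀ Γ hSm hD8 hDq hΓ
  have hZa : Z ≥ Z1 := (le_max_left _ _).trans ((le_max_left _ _).trans hZ)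
  have hZb : Z ≥ Z2 := (le_max_right _ _).trans ((le_max_left _ _).trans hZ)
  have hZc : Z ≥ Z3 := (le_max_left _ _).trans ((le_max_right _ _).trans hZ)
  have hZd : Z ≥ Z4 := (le_max_right _ _).trans ((le_max_right _ _).trans hZ)
  have hDodd : Odd D₀ := by
    rw [Nat.odd_iff]
    omega
  have hΓR : (1 : ℝ) ≤ Γ := by exact_mod_cast hΓ
  have hΓ0 : (0 : ℝ) < Γ := by linarith
  obtain ⟨K1, hK1⟩ := hZ1 Z hZa q D₀ Γ hSm hDodd hDq hΓ
  obtain ⟨K2, hK2⟩ := hZ2 Z hZb q D₀ Γ hSm hD8 hDq hΓ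
  obtain ⟨K3, hK3⟩ := PRK_small (1 / 100) (η / 4 * (c₀ ^ 2 / (16 * Γ))) (by norm_num) (by positivity)
  obtain ⟨K4, hK4⟩ := PRK_small (1 / 4000) (η / 4 * (c₀ ^ 2 / (16 * Γ)) / 164001) (by norm_num)
    (by positivity)
  refine ⟨max (max (max K1 K2) (max K3 K4)) 1, ?_⟩
  intro K hK S hF N hN
  have hKa : K ≥ K1 := (le_max_left _ _).trans ((le_max_left _ _).trans ((le_max_left _ _).trans hK))
  have hKb : K ≥ K2 := (le_max_right _ _).trans ((le_max_left _ _).trans ((le_max_left _ _).trans hK))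
  have hKc : K ≥ K3 := (le_max_left _ _).trans ((le_max_right _ _).trans ((le_max_left _ _).trans hK))
  have hKd : K ≥ K4 := (le_max_right _ _).trans ((le_max_right _ _).trans ((le_max_left _ _).trans hK))
  have hK1' : 1 ≤ K := (le_max_right _ _).trans hK
  have hKR : (1 : ℝ) ≤ K := by exact_mod_cast hK1'
  have hK0 : (0 : ℝ) < K := by linarith
  set f : ℕ → ℕ → ℝ := fun j g => 1 / (g : ℝ) * Bj S j g ^ 2 with hf
  have hf0 : ∀ j g, 0 ≤ f j g := fun j g => by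
    simp only [hf]
    positivity
  have hin0 : ∀ (j : ℕ) (T : Finset ℕ), 0 ≤ wj j * ∑ g ∈ T, f j g := fun j T =>
    mul_nonneg (PRK_wj j) (sum_nonneg fun g _ => hf0 j g)
  -- the splitting in `j`
  have hsplit : QF q N (K ^ 41) S ≤
      (∑ j ∈ (cop q K).filter (fun j => j ^ 100 ≤ K), wj j * ∑ g ∈ cop q (K ^ 41), f j g) +
      ∑ j ∈ (cop q N).filter (fun j => K < j ^ 100), wj j * ∑ g ∈ cop q (K ^ 41), f j g := by
    unfold QF
    rw [← sum_filter_add_sum_filter_not (cop q N) (fun j => j ^ 100 ≤ K)]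
    refine add_le_add ?_ (le_of_eq ?_)
    · refine sum_le_sum_of_subset_of_nonneg ?_ (fun j _ _ => hin0 j _)
      intro j hj
      rw [mem_filter] at hj ⊢
      refine ⟨?_, hj.2⟩
      unfold cop at hj ⊢
      rw [mem_filter, mem_Icc] at hj ⊢
      refine ⟨⟨hj.1.1.1, ?_⟩, hj.1.2⟩
      exact (Nat.le_self_pow (by norm_num) j).trans hj.2
    · exact sum_congr (filter_congr fun j _ => not_le) fun j _ => rfl
  -- part (i), (ii)
  have hA : ∑ j ∈ (cop q K).filter (fun j => j ^ 100 ≤ K), wj j * ∑ g ∈ cop q (K ^ 41), f j g ≤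
      (∑ D ∈ S, cD D) ^ 2 +
      (∑ j ∈ (cop q K).filter (fun j => j ^ 100 ≤ K), wj j *
        ∑ g ∈ (cop q K).filter (fun g => g ^ 4 ≤ K ∧ ¬ (j = 1 ∧ g = 1)), f j g) +
      ∑ j ∈ (cop q K).filter (fun j => j ^ 100 ≤ K), wj j *
        ∑ g ∈ (cop q (K ^ 41)).filter (fun g => K < g ^ 4), f j g := by
    have h1 : ∀ j, ∑ g ∈ cop q (K ^ 41), f j g ≤ (if j = 1 then f 1 1 else 0) +
        (∑ g ∈ (cop q K).filter (fun g => g ^ 4 ≤ K ∧ ¬ (j = 1 ∧ g = 1)), f j g) +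
        ∑ g ∈ (cop q (K ^ 41)).filter (fun g => K < g ^ 4), f j g := by
      intro j
      rw [← sum_filter_add_sum_filter_not (cop q (K ^ 41)) (fun g => g ^ 4 ≤ K)]
      refine add_le_add ?_ (le_of_eq ?_)
      · rw [← sum_filter_add_sum_filter_not ((cop q (K ^ 41)).filter (fun g => g ^ 4 ≤ K))
          (fun g => j = 1 ∧ g = 1)]
        refine add_le_add ?_ ?_
        · by_cases hj : j = 1
          · subst hj
            rw [if_pos rfl]
            have h2 : ((cop q (K ^ 41)).filter (fun g => g ^ 4 ≤ K)).filter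
                (fun g => 1 = 1 ∧ g = 1) ⊆ {1} := by
              intro g hg
              rw [mem_filter] at hg
              rw [mem_singleton]
              exact hg.2.2
            refine (sum_le_sum_of_subset_of_nonneg h2 (fun g _ _ => hf0 1 g)).trans (le_of_eq ?_)
            rw [sum_singleton]
          · rw [if_neg hj]
            refine le_of_eq (sum_eq_zero ?_)
            intro g hg
            rw [mem_filter] at hg
            exact absurd hg.2.1 hj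
        · refine sum_le_sum_of_subset_of_nonneg ?_ (fun g _ _ => hf0 j g)
          intro g hg
          rw [mem_filter, mem_filter] at hg
          rw [mem_filter]
          refine ⟨?_, hg.1.2, hg.2⟩
          have h3 := hg.1.1
          unfold cop at h3 ⊢
          rw [mem_filter, mem_Icc] at h3 ⊢
          refine ⟨⟨h3.1.1, ?_⟩, h3.2⟩
          exact (Nat.le_self_pow (by norm_num) g).trans hg.1.2
      · exact sum_congr (filter_congr fun j _ => not_le) fun j _ => rfl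
    calc ∑ j ∈ (cop q K).filter (fun j => j ^ 100 ≤ K), wj j * ∑ g ∈ cop q (K ^ 41), f j g
        ≤ ∑ j ∈ (cop q K).filter (fun j => j ^ 100 ≤ K), wj j * ((if j = 1 then f 1 1 else 0) +
        (∑ g ∈ (cop q K).filter (fun g => g ^ 4 ≤ K ∧ ¬ (j = 1 ∧ g = 1)), f j g) +
        ∑ g ∈ (cop q (K ^ 41)).filter (fun g => K < g ^ 4), f j g) :=
          sum_le_sum fun j _ => mul_le_mul_of_nonneg_left (h1 j) (PRK_wj j)
      _ = (∑ j ∈ (cop q K).filter (fun j => j ^ 100 ≤ K), wj j * (if j = 1 then f 1 1 else 0)) +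
          (∑ j ∈ (cop q K).filter (fun j => j ^ 100 ≤ K), wj j *
        ∑ g ∈ (cop q K).filter (fun g => g ^ 4 ≤ K ∧ ¬ (j = 1 ∧ g = 1)), f j g) +
      ∑ j ∈ (cop q K).filter (fun j => j ^ 100 ≤ K), wj j *
        ∑ g ∈ (cop q (K ^ 41)).filter (fun g => K < g ^ 4), f j g := by
          rw [← sum_add_distrib, ← sum_add_distrib]
          exact sum_congr rfl fun j _ => by ring
      _ ≤ _ := by
          have h2 : (∑ j ∈ (cop q K).filter (fun j => j ^ 100 ≤ K),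
              wj j * (if j = 1 then f 1 1 else 0)) ≤ (∑ D ∈ S, cD D) ^ 2 := by
            have h3 : ∀ j, wj j * (if j = 1 then f 1 1 else 0) =
                if j = 1 then (∑ D ∈ S, cD D) ^ 2 else 0 := by
              intro j
              by_cases hj : j = 1
              · subst hj
                rw [if_pos rfl, if_pos rfl, PRK_wj1]
                simp only [hf]
                rw [PRK_B11]
                simp
              · rw [if_neg hj, if_neg hj, mul_zero]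
            rw [sum_congr rfl (fun j _ => h3 j)]
            rw [sum_ite_eq']
            split_ifs
            · exact le_rfl
            · positivity
          linarith
  have hi := hZ3 Z hZc c₀ C₀ q D₀ Γ K S hC₀ hΓ hK1' hSm hF
  have hii := hK2 K hKb c₀ C₀ S hF
  -- part (iii)
  have hiii : ∑ j ∈ (cop q N).filter (fun j => K < j ^ 100), wj j * ∑ g ∈ cop q (K ^ 41), f j g ≤
      η / 4 * (c₀ ^ 2 / (16 * Γ)) := by
    have h1 : ∀ j, ∑ g ∈ cop q (K ^ 41), f j g ≤ (1 + 41 * Real.log K) *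
        (1 / (Γ * (K : ℝ) ^ 4) * ∑ D ∈ S, ∑ D' ∈ S, gw D j * gw D' j) := by
      intro j
      have h2 : 0 ≤ 1 / (Γ * (K : ℝ) ^ 4) * ∑ D ∈ S, ∑ D' ∈ S, gw D j * gw D' j :=
        mul_nonneg (by positivity) (sum_nonneg fun D _ => sum_nonneg fun D' _ =>
          mul_nonneg (PRK_gw D j) (PRK_gw D' j))
      calc ∑ g ∈ cop q (K ^ 41), f j g ≤ ∑ g ∈ cop q (K ^ 41), 1 / (g : ℝ) *
            (1 / (Γ * (K : ℝ) ^ 4) * ∑ D ∈ S, ∑ D' ∈ S, gw D j * gw D' j) :=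
            sum_le_sum fun g _ => mul_le_mul_of_nonneg_left (PRK_up hK1' hΓ hF j g) (by positivity)
        _ = (∑ g ∈ cop q (K ^ 41), 1 / (g : ℝ)) *
            (1 / (Γ * (K : ℝ) ^ 4) * ∑ D ∈ S, ∑ D' ∈ S, gw D j * gw D' j) := by rw [sum_mul]
        _ ≤ _ := by
            refine mul_le_mul_of_nonneg_right ((PRK_harm q (K ^ 41)).trans (le_of_eq ?_)) h2
            push_cast
            rw [Real.log_pow]
            norm_num
    have h2 := hK1 K hKa c₀ C₀ S hF N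
    have hlog : 0 ≤ Real.log K := Real.log_nonneg hKR
    have h3 : ∑ j ∈ (cop q N).filter (fun j => K < j ^ 100), wj j * ∑ g ∈ cop q (K ^ 41), f j g ≤
        (1 + 41 * Real.log K) * (1 / (Γ * (K : ℝ) ^ 4)) *
          ∑ D ∈ S, ∑ D' ∈ S, ∑ j ∈ (cop q N).filter (fun j => K < j ^ 100), wj j * gw D j * gw D' j := by
      have h4 : ∑ D ∈ S, ∑ D' ∈ S, ∑ j ∈ (cop q N).filter (fun j => K < j ^ 100),
          wj j * gw D j * gw D' j = ∑ j ∈ (cop q N).filter (fun j => K < j ^ 100), wj j *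
            ∑ D ∈ S, ∑ D' ∈ S, gw D j * gw D' j := by
        have h5 : ∀ D ∈ S, ∑ D' ∈ S, ∑ j ∈ (cop q N).filter (fun j => K < j ^ 100),
            wj j * gw D j * gw D' j = ∑ j ∈ (cop q N).filter (fun j => K < j ^ 100),
            ∑ D' ∈ S, wj j * gw D j * gw D' j := fun D _ => sum_comm
        rw [sum_congr rfl h5, sum_comm]
        refine sum_congr rfl fun j _ => ?_
        rw [mul_sum]
        refine sum_congr rfl fun D _ => ?_
        rw [mul_sum]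
        exact sum_congr rfl fun D' _ => by ring
      rw [h4, mul_sum]
      refine sum_le_sum fun j _ => ?_
      refine (mul_le_mul_of_nonneg_left (h1 j) (PRK_wj j)).trans (le_of_eq ?_)
      ring
    refine h3.trans ((mul_le_mul_of_nonneg_left h2 (by positivity)).trans ?_)
    have h4 : Real.log K ≤ 4000 * (K : ℝ) ^ (1 / 4000 : ℝ) := by
      have h5 := Real.log_le_rpow_div hK0.le (show (0 : ℝ) < 1 / 4000 by norm_num)
      refine h5.trans (le_of_eq ?_)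
      ring
    have h5 : (1 : ℝ) ≤ (K : ℝ) ^ (1 / 4000 : ℝ) := Real.one_le_rpow hKR (by norm_num)
    have h6 : 1 + 41 * Real.log K ≤ 164001 * (K : ℝ) ^ (1 / 4000 : ℝ) := by linarith
    have h7 : 1 / (Γ * (K : ℝ) ^ 4) ≤ (K : ℝ) ^ (-4 : ℝ) := by
      rw [Real.rpow_neg hK0.le, ← one_div]
      refine one_div_le_one_div_of_le (by positivity) ?_
      have h8 : (K : ℝ) ^ (4 : ℝ) = (K : ℝ) ^ 4 := by
        exact_mod_cast Real.rpow_natCast (K : ℝ) 4
      rw [h8]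
      exact le_mul_of_one_le_left (by positivity) hΓR
    have h8 : (1 + 41 * Real.log K) * (1 / (Γ * (K : ℝ) ^ 4)) ≤
        164001 * (K : ℝ) ^ (1 / 4000 : ℝ) * (K : ℝ) ^ (-4 : ℝ) :=
      mul_le_mul h6 h7 (by positivity) (by positivity)
    refine (mul_le_mul_of_nonneg_right h8 (by positivity)).trans ?_
    have h9 : 164001 * (K : ℝ) ^ (1 / 4000 : ℝ) * (K : ℝ) ^ (-4 : ℝ) * (K : ℝ) ^ (4 - 1 / 2000 : ℝ) =
        164001 * (K : ℝ) ^ (-(1 / 4000) : ℝ) := by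
      rw [mul_assoc, mul_assoc, ← Real.rpow_add hK0, ← Real.rpow_add hK0]
      norm_num
    rw [h9]
    have h10 := hK4 K hKd
    rw [le_div_iff₀ (by norm_num)] at h10
    linarith
  have hZ5 := hZ4 Z hZd
  have hi' : (200 * (2 * C₀ + 1) / Γ) * (Z : ℝ) ^ (-(9 / 50) : ℝ) ≤ η / 4 * (c₀ ^ 2 / (16 * Γ)) := by
    rw [le_div_iff₀ (by positivity)] at hZ5
    have h1 : (200 * (2 * C₀ + 1) / Γ) * (Z : ℝ) ^ (-(9 / 50) : ℝ) =
        ((Z : ℝ) ^ (-(9 / 50) : ℝ) * (200 * (2 * C₀ + 1))) / Γ := by ring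
    have h2 : η / 4 * (c₀ ^ 2 / (16 * Γ)) = (η / 4 * (c₀ ^ 2 / 16)) / Γ := by
      field_simp
    rw [h1, h2]
    exact div_le_div_of_nonneg_right hZ5 hΓ0.le
  have hii' := hK3 K hKc
  have hlow := PRK_low hK1' hΓ hc₀ hF
  have hlow' : η * (c₀ ^ 2 / (16 * Γ)) ≤ η * (∑ D ∈ S, cD D) ^ 2 :=
    mul_le_mul_of_nonneg_left hlow hη.le
  have hpos : 0 ≤ η * (c₀ ^ 2 / (16 * Γ)) := by positivity
  calc QF q N (K ^ 41) S ≤ _ := hsplit
    _ ≤ ((∑ D ∈ S, cD D) ^ 2 + η / 4 * (c₀ ^ 2 / (16 * Γ)) + η / 4 * (c₀ ^ 2 / (16 * Γ))) +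
        η / 4 * (c₀ ^ 2 / (16 * Γ)) := by
        refine add_le_add (hA.trans ?_) hiii
        exact add_le_add (add_le_add le_rfl (hi.trans hi')) (hii.trans hii')
    _ ≤ (1 + η) * (∑ D ∈ S, cD D) ^ 2 := by linarith

end Pool.Agent.SU
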