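import Pool.Agent.helper40.SU.SpecB

/-!
# Project su, row SML: the small part of the quadratic form
-/

set_option autoImplicit false

open Finset

namespace Pool.Agent.SU

theorem SML_wj (j : ℕ) : 0 ≤ wj j := by
  unfold wj
  positivity

theorem SML_wj1 : wj 1 = 1 := by
  unfold wj om
  simp

theorem SML_gw (D j : ℕ) : 0 ≤ gw D j := by
  unfold gw
  positivity

theorem SML_cD (D : ℕ) : 0 ≤ cD D := by
  unfold cD
  positivity

theorem SML_jac (a : ℤ) (b : ℕ) : |(jacobiSym a b : ℝ)| ≤ 1 := by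
  rcases jacobiSym.trichotomy a b with h | h | h <;> simp [h]

/-- the sum over the `D` prime to `a` -/
noncomputable def SML_X (S : Finset ℕ) (j a b : ℕ) : ℝ :=
  ∑ D ∈ S.filter (fun D => D.Coprime a), cD D * gw D j * (jacobiSym D b : ℝ)

theorem SML_Xabs (S : Finset ℕ) (j a b : ℕ) : |SML_X S j a b| ≤ ∑ D ∈ S, cD D * gw D j := by
  unfold SML_X
  refine (abs_sum_le_sum_abs _ _).trans ?_
  refine (sum_le_sum (g := fun D => cD D * gw D j) ?_).trans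
    (sum_le_sum_of_subset_of_nonneg (filter_subset _ _)
      (fun D _ _ => mul_nonneg (SML_cD D) (SML_gw D j)))
  intro D _
  rw [abs_mul, abs_of_nonneg (mul_nonneg (SML_cD D) (SML_gw D j))]
  exact mul_le_of_le_one_right (mul_nonneg (SML_cD D) (SML_gw D j)) (SML_jac _ _)

theorem SML_Bj (S : Finset ℕ) (j r s : ℕ) (hr : r ≠ 0) (hs : s ≠ 0) :
    Bj S j (r ^ 2 * s) = SML_X S j r s := by
  unfold Bj SML_X
  rw [sum_filter]
  refine sum_congr rfl ?_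
  intro D _
  haveI : NeZero r := ⟨hr⟩
  haveI : NeZero s := ⟨hs⟩
  haveI : NeZero (r ^ 2) := ⟨pow_ne_zero 2 hr⟩
  rw [jacobiSym.mul_right, jacobiSym.pow_right]
  by_cases h : D.Coprime r
  · rw [if_pos h, jacobiSym.sq_one (by simpa [Int.gcd_natCast_natCast] using h)]
    push_cast
    ring
  · rw [if_neg h]
    have h1 : jacobiSym (D : ℤ) r = 0 := by
      rw [jacobiSym.eq_zero_iff_not_coprime]
      intro h2
      exact h (by simpa [Int.gcd_natCast_natCast] using h2)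
    rw [h1]
    simp

theorem SML_up {c₀ C₀ : ℝ} {q D₀ Γ K : ℕ} {S : Finset ℕ} (hGC3 : GC3_stmt) (hK : 1 ≤ K) (hΓ : 1 ≤ Γ)
    (hSm : Sm 256 q) (hF : Fam c₀ C₀ q D₀ Γ K S) {j : ℕ} (h1j : 1 ≤ j) (hjK : j ≤ K)
    (hj : j.Coprime (2 * q)) (a b : ℕ) : SML_X S j a b ^ 2 ≤ 4 / Γ * 5 ^ (om j) := by
  have hKR : (0 : ℝ) < K := by exact_mod_cast hK
  have hΓR : (0 : ℝ) < Γ := by exact_mod_cast hΓ
  have hsΓ : 0 < √(Γ : ℝ) := Real.sqrt_pos.2 hΓR
  have h1 : ∀ D ∈ S, cD D ≤ 1 / (√(Γ : ℝ) * (K : ℝ) ^ 2) := by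
    intro D hD
    have h2 := hF.lo D hD
    have h2R : (Γ : ℝ) * (K : ℝ) ^ 4 ≤ D := by exact_mod_cast h2
    unfold cD
    refine one_div_le_one_div_of_le (by positivity) ?_
    refine Real.le_sqrt_of_sq_le (le_trans (le_of_eq ?_) h2R)
    rw [mul_pow, Real.sq_sqrt hΓR.le]
    ring
  have h2 : |SML_X S j a b| ≤ 1 / (√(Γ : ℝ) * (K : ℝ) ^ 2) * (2 * (K : ℝ) ^ 2 * 2 ^ (om j)) := by
    refine (SML_Xabs S j a b).trans ?_
    refine le_trans (sum_le_sum fun D hD => mul_le_mul_of_nonneg_right (h1 D hD) (SML_gw D j)) ?_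
    rw [← mul_sum]
    exact mul_le_mul_of_nonneg_left (hGC3 c₀ C₀ q D₀ Γ K S hSm hF j h1j hjK hj).2 (by positivity)
  have h3 : SML_X S j a b ^ 2 ≤
      (1 / (√(Γ : ℝ) * (K : ℝ) ^ 2) * (2 * (K : ℝ) ^ 2 * 2 ^ (om j))) ^ 2 := by
    rw [← sq_abs (SML_X S j a b)]
    exact pow_le_pow_left₀ (abs_nonneg _) h2 2
  refine h3.trans ?_
  have h4 : (1 / (√(Γ : ℝ) * (K : ℝ) ^ 2) * (2 * (K : ℝ) ^ 2 * 2 ^ (om j))) ^ 2 =
      4 / Γ * 4 ^ (om j) := by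
    have h5 : (1 / (√(Γ : ℝ) * (K : ℝ) ^ 2) * (2 * (K : ℝ) ^ 2 * 2 ^ (om j))) =
        2 * 2 ^ (om j) / √(Γ : ℝ) := by
      field_simp
    rw [h5, div_pow, mul_pow, Real.sq_sqrt hΓR.le, ← pow_mul, mul_comm (om j) 2, pow_mul]
    norm_num
    ring
  rw [h4]
  refine mul_le_mul_of_nonneg_left ?_ (by positivity)
  exact pow_le_pow_left₀ (by norm_num) (by norm_num) _

theorem SML_geom (Z K : ℕ) (hZ : 1 ≤ Z) :
    ∑ i ∈ (range K).filter (fun i => Z < 2 * 2 ^ i), ((2 ^ i : ℕ) : ℝ) ^ (-(9 / 50) : ℝ) ≤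
      11 * (Z : ℝ) ^ (-(9 / 50) : ℝ) := by
  set ρ : ℝ := (2 : ℝ) ^ (-(9 / 50) : ℝ) with hρ
  have hρ0 : 0 < ρ := Real.rpow_pos_of_pos (by norm_num) _
  have hρ50 : ρ ^ 50 = 1 / 512 := by
    rw [hρ, ← Real.rpow_natCast, ← Real.rpow_mul (by norm_num)]
    have h1 : (-(9 / 50) : ℝ) * ((50 : ℕ) : ℝ) = ((-9 : ℤ) : ℝ) := by norm_num
    rw [h1, Real.rpow_intCast]
    norm_num
  have hρ1 : ρ ≤ 0.89 := by
    by_contra hc
    have hc' : (0.89 : ℝ) < ρ := not_le.1 hc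
    have h1 : (0.89 : ℝ) ^ 50 < ρ ^ 50 := pow_lt_pow_left₀ hc' (by norm_num) (by norm_num)
    rw [hρ50] at h1
    norm_num at h1
  have hρ2 : 1 / 2 ≤ ρ := by
    have h1 : (2 : ℝ) ^ (-1 : ℝ) ≤ ρ := by
      rw [hρ]
      exact Real.rpow_le_rpow_of_exponent_le (by norm_num) (by norm_num)
    rw [Real.rpow_neg_one] at h1
    linarith
  have hlt : ρ < 1 := by linarith
  have hpw : ∀ i : ℕ, ((2 ^ i : ℕ) : ℝ) ^ (-(9 / 50) : ℝ) = ρ ^ i := by
    intro i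
    rw [hρ]
    push_cast
    rw [← Real.rpow_natCast, ← Real.rpow_natCast, ← Real.rpow_mul (by norm_num),
      ← Real.rpow_mul (by norm_num), mul_comm]
  have hex : ∃ i : ℕ, Z < 2 * 2 ^ i := ⟨Z, by
    have := Nat.lt_two_pow_self (n := Z)
    omega⟩
  have hi0 := Nat.find_spec hex
  set i₀ := Nat.find hex with hi₀
  have hsub : (range K).filter (fun i => Z < 2 * 2 ^ i) ⊆ Ico i₀ K := by
    intro i hi
    rw [mem_filter, mem_range] at hi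
    rw [mem_Ico]
    exact ⟨Nat.find_min' hex hi.2, hi.1⟩
  have h1 : ∑ i ∈ (range K).filter (fun i => Z < 2 * 2 ^ i), ((2 ^ i : ℕ) : ℝ) ^ (-(9 / 50) : ℝ) ≤
      ρ ^ i₀ / (1 - ρ) := by
    rw [sum_congr rfl (fun i _ => hpw i)]
    exact (sum_le_sum_of_subset_of_nonneg hsub (fun i _ _ => by positivity)).trans
      (geom_sum_Ico_le_of_lt_one hρ0.le hlt)
  have hZR : (0 : ℝ) < Z := by exact_mod_cast hZ
  have h2 : ρ ^ i₀ ≤ (Z : ℝ) ^ (-(9 / 50) : ℝ) / ρ := by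
    rw [← hpw i₀]
    have h3 : ((Z : ℝ) / 2) ≤ ((2 ^ i₀ : ℕ) : ℝ) := by
      have h4 : ((Z : ℕ) : ℝ) < ((2 * 2 ^ i₀ : ℕ) : ℝ) := by exact_mod_cast hi0
      push_cast at h4 ⊢
      linarith
    have h5 := Real.rpow_le_rpow_of_nonpos (by positivity : (0 : ℝ) < (Z : ℝ) / 2) h3
      (by norm_num : (-(9 / 50) : ℝ) ≤ 0)
    refine h5.trans (le_of_eq ?_)
    rw [Real.div_rpow hZR.le (by norm_num)]
  have hW : 0 < (Z : ℝ) ^ (-(9 / 50) : ℝ) := Real.rpow_pos_of_pos hZR _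
  refine h1.trans ?_
  rw [div_le_iff₀ (by linarith)]
  refine h2.trans ?_
  rw [div_le_iff₀ hρ0]
  have h6 : (1 : ℝ) ≤ 11 * ((1 - ρ) * ρ) := by nlinarith
  calc (Z : ℝ) ^ (-(9 / 50) : ℝ) = (Z : ℝ) ^ (-(9 / 50) : ℝ) * 1 := by ring
    _ ≤ (Z : ℝ) ^ (-(9 / 50) : ℝ) * (11 * ((1 - ρ) * ρ)) := mul_le_mul_of_nonneg_left h6 hW.le
    _ = _ := by ring

theorem SML_gtZ {Z q a : ℕ} (hSm : Sm Z q) (ha : a.Coprime (2 * q)) (ha1 : a ≠ 1) (ha0 : a ≠ 0) :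
    Z < a := by
  by_contra hc
  obtain ⟨p, hp, hpa⟩ := Nat.exists_prime_and_dvd ha1
  have h1 : p ≤ Z := (Nat.le_of_dvd (Nat.pos_of_ne_zero ha0) hpa).trans (not_lt.1 hc)
  have h2 := hSm p hp h1
  exact Nat.Prime.not_coprime_iff_dvd.2 ⟨p, hp, hpa, h2⟩ ha

theorem SML_sq2 (q K : ℕ) : ∑ a ∈ cop q K, 1 / (a : ℝ) ^ 2 ≤ 2 := by
  have h1 : cop q K ⊆ Ioo 0 (K + 1) := by
    intro a ha
    unfold cop at ha
    rw [mem_filter, mem_Icc] at ha
    rw [mem_Ioo]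
    omega
  have h2 := sum_Ioo_inv_sq_le (α := ℝ) 0 (K + 1)
  calc ∑ a ∈ cop q K, 1 / (a : ℝ) ^ 2 ≤ ∑ a ∈ Ioo 0 (K + 1), 1 / (a : ℝ) ^ 2 :=
        sum_le_sum_of_subset_of_nonneg h1 (fun a _ _ => by positivity)
    _ = ∑ a ∈ Ioo 0 (K + 1), ((a : ℝ) ^ 2)⁻¹ := sum_congr rfl fun a _ => one_div _
    _ ≤ _ := by
        refine h2.trans ?_
        norm_num

theorem SML_sqZ {Z q : ℕ} (K : ℕ) (hZ : 1 ≤ Z) (hSm : Sm Z q) :
    ∑ a ∈ (cop q K).filter (fun a => a ≠ 1), 1 / (a : ℝ) ^ 2 ≤ 2 / (Z : ℝ) := by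
  have h1 : (cop q K).filter (fun a => a ≠ 1) ⊆ Ioo Z (K + 1) := by
    intro a ha
    rw [mem_filter] at ha
    have h2 := ha.1
    unfold cop at h2
    rw [mem_filter, mem_Icc] at h2
    rw [mem_Ioo]
    exact ⟨SML_gtZ hSm h2.2 ha.2 (by omega), by omega⟩
  have h2 := sum_Ioo_inv_sq_le (α := ℝ) Z (K + 1)
  have hZR : (0 : ℝ) < Z := by exact_mod_cast hZ
  calc ∑ a ∈ (cop q K).filter (fun a => a ≠ 1), 1 / (a : ℝ) ^ 2
      ≤ ∑ a ∈ Ioo Z (K + 1), 1 / (a : ℝ) ^ 2 :=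
        sum_le_sum_of_subset_of_nonneg h1 (fun a _ _ => by positivity)
    _ = ∑ a ∈ Ioo Z (K + 1), ((a : ℝ) ^ 2)⁻¹ := sum_congr rfl fun a _ => one_div _
    _ ≤ _ := by
        refine h2.trans ?_
        exact div_le_div_of_nonneg_left (by norm_num) hZR (by linarith)

/-- the sum over `b` -/
theorem SML_b (hSMB : SMB_stmt) {c₀ C₀ : ℝ} {q D₀ Γ K Z : ℕ} {S : Finset ℕ} (hC₀ : 0 ≤ C₀) (hK : 1 ≤ K)
    (hΓ : 1 ≤ Γ) (hZ : 1 ≤ Z) (hSm : Sm Z q) (hSm' : Sm 256 q) (hF : Fam c₀ C₀ q D₀ Γ K S) {j : ℕ}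
    (h1j : 1 ≤ j) (hjK : j ≤ K) (hj : j.Coprime (2 * q)) (a : ℕ) :
    ∑ b ∈ (cop q K).filter (fun b => Squarefree b ∧ b ^ 4 ≤ K ∧ b ≠ 1),
      1 / (b : ℝ) * SML_X S j a b ^ 2 ≤
    (4 * (2 * C₀ + 1) / Γ) * 5 ^ (om j) * (j : ℝ) ^ (1 / 10 : ℝ) * (11 * (Z : ℝ) ^ (-(9 / 50) : ℝ)) := by
  set T := (cop q K).filter (fun b => Squarefree b ∧ b ^ 4 ≤ K ∧ b ≠ 1) with hT
  have hTm : ∀ b ∈ T, 1 ≤ b ∧ b ≤ K ∧ b.Coprime (2 * q) ∧ Squarefree b ∧ b ^ 4 ≤ K ∧ b ≠ 1 := by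
    intro b hb
    rw [hT, mem_filter] at hb
    have h2 := hb.1
    unfold cop at h2
    rw [mem_filter, mem_Icc] at h2
    exact ⟨h2.1.1, h2.1.2, h2.2, hb.2⟩
  set I := (range K).filter (fun i => Z < 2 * 2 ^ i) with hI
  have hlog : ∀ b ∈ T, 2 ^ Nat.log 2 (b - 1) < b ∧ b ≤ 2 * 2 ^ Nat.log 2 (b - 1) := by
    intro b hb
    obtain ⟨h1, -, -, -, -, h6⟩ := hTm b hb
    have h7 := Nat.pow_log_le_self 2 (show b - 1 ≠ 0 by omega)
    have h8 := Nat.lt_pow_succ_log_self (show 1 < 2 by norm_num) (b - 1)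
    rw [pow_succ] at h8
    omega
  have hmaps : ∀ b ∈ T, Nat.log 2 (b - 1) ∈ I := by
    intro b hb
    obtain ⟨h1, h2, h3, h4, h5, h6⟩ := hTm b hb
    obtain ⟨h7, h8⟩ := hlog b hb
    have h9 := SML_gtZ hSm h3 h6 (by omega)
    have h10 := Nat.lt_two_pow_self (n := Nat.log 2 (b - 1))
    rw [hI, mem_filter, mem_range]
    omega
  rw [← sum_fiberwise_of_maps_to hmaps]
  have hA0 : 0 ≤ (4 * (2 * C₀ + 1) / Γ) * 5 ^ (om j) * (j : ℝ) ^ (1 / 10 : ℝ) := by positivity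
  have hstep : ∀ i ∈ I, ∑ b ∈ T.filter (fun b => Nat.log 2 (b - 1) = i), 1 / (b : ℝ) * SML_X S j a b ^ 2 ≤
      (4 * (2 * C₀ + 1) / Γ) * 5 ^ (om j) * (j : ℝ) ^ (1 / 10 : ℝ) *
        ((2 ^ i : ℕ) : ℝ) ^ (-(9 / 50) : ℝ) := by
    intro i _
    by_cases hi : (2 ^ i) ^ 4 ≤ K
    · have h1 := hSMB c₀ C₀ q D₀ Γ K S hC₀ hΓ hK hSm' hF j a (2 ^ i) h1j hjK hj
        (Nat.one_le_two_pow) hi
      refine le_trans ?_ h1
      rw [mul_sum]
      have hsub : T.filter (fun b => Nat.log 2 (b - 1) = i) ⊆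
          (Ioc (2 ^ i) (2 * 2 ^ i)).filter (fun b => Squarefree b ∧ b.Coprime (2 * q)) := by
        intro b hb
        rw [mem_filter] at hb
        obtain ⟨h7, h8⟩ := hlog b hb.1
        rw [hb.2] at h7 h8
        obtain ⟨-, -, h3, h4, -, -⟩ := hTm b hb.1
        rw [mem_filter, mem_Ioc]
        exact ⟨⟨h7, h8⟩, h4, h3⟩
      refine (sum_le_sum (g := fun b => 1 / ((2 ^ i : ℕ) : ℝ) * SML_X S j a b ^ 2) ?_).trans
        (sum_le_sum_of_subset_of_nonneg hsub (fun b _ _ => by positivity))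
      intro b hb
      rw [mem_filter] at hb
      obtain ⟨h7, h8⟩ := hlog b hb.1
      rw [hb.2] at h7
      refine mul_le_mul_of_nonneg_right ?_ (sq_nonneg _)
      refine one_div_le_one_div_of_le (by positivity) ?_
      exact_mod_cast h7.le
    · have h1 : T.filter (fun b => Nat.log 2 (b - 1) = i) = ∅ := by
        rw [filter_eq_empty_iff]
        intro b hb h2
        obtain ⟨h7, h8⟩ := hlog b hb
        rw [h2] at h7
        obtain ⟨-, -, -, -, h5, -⟩ := hTm b hb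
        exact hi ((Nat.pow_le_pow_left h7.le 4).trans h5)
      rw [h1, sum_empty]
      positivity
  refine (sum_le_sum hstep).trans ?_
  rw [← mul_sum]
  exact mul_le_mul_of_nonneg_left (SML_geom Z K hZ) hA0

/-- the sum over `g ≠ 1` for one `j` -/
theorem SML_g (hGC3 : GC3_stmt) (hSMB : SMB_stmt) {c₀ C₀ : ℝ} {q D₀ Γ K Z : ℕ} {S : Finset ℕ}
    (hC₀ : 0 ≤ C₀) (hK : 1 ≤ K) (hΓ : 1 ≤ Γ) (hZ : 1 ≤ Z) (hSm : Sm Z q) (hSm' : Sm 256 q)
    (hF : Fam c₀ C₀ q D₀ Γ K S) {j : ℕ} (h1j : 1 ≤ j) (hjK : j ≤ K) (hj : j.Coprime (2 * q)) :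
    ∑ g ∈ (cop q K).filter (fun g => g ^ 4 ≤ K ∧ g ≠ 1), 1 / (g : ℝ) * Bj S j g ^ 2 ≤
      (8 / Γ * (1 / Z) + 2 * ((4 * (2 * C₀ + 1) / Γ) * (11 * (Z : ℝ) ^ (-(9 / 50) : ℝ)))) *
        (5 ^ (om j) * (j : ℝ) ^ (1 / 10 : ℝ)) := by
  have hΓR : (0 : ℝ) < Γ := by exact_mod_cast hΓ
  have hZR : (0 : ℝ) < Z := by exact_mod_cast hZ
  have hjR : (1 : ℝ) ≤ (j : ℝ) ^ (1 / 10 : ℝ) :=
    Real.one_le_rpow (by exact_mod_cast h1j) (by norm_num)
  set T := (cop q K).filter (fun b => Squarefree b ∧ b ^ 4 ≤ K ∧ b ≠ 1) with hT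
  set P1 : Finset (ℕ × ℕ) := ((cop q K).filter (fun a => a ≠ 1)) ×ˢ {1} with hP1
  set P2 : Finset (ℕ × ℕ) := (cop q K) ×ˢ T with hP2
  set H : ℕ × ℕ → ℝ := fun x => 1 / (x.1 : ℝ) ^ 2 * (1 / (x.2 : ℝ) * SML_X S j x.1 x.2 ^ 2) with hH
  have hH0 : ∀ x, 0 ≤ H x := fun x => by
    simp only [hH]
    positivity
  have hex : ∀ g : ℕ, ∃ x : ℕ × ℕ, x.1 ^ 2 * x.2 = g ∧ Squarefree x.2 := by
    intro g
    obtain ⟨a, b, h1, h2⟩ := Nat.sq_mul_squarefree g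
    exact ⟨(b, a), h1, h2⟩
  choose ψ hψ using hex
  have hinj : Set.InjOn ψ ((cop q K).filter (fun g => g ^ 4 ≤ K ∧ g ≠ 1) : Finset ℕ) := by
    intro g _ g' _ h
    rw [← (hψ g).1, ← (hψ g').1, h]
  have hG : ∀ g ∈ (cop q K).filter (fun g => g ^ 4 ≤ K ∧ g ≠ 1),
      1 / (g : ℝ) * Bj S j g ^ 2 = H (ψ g) ∧ ψ g ∈ P1 ∪ P2 := by
    intro g hg
    rw [mem_filter] at hg
    obtain ⟨hg1, hg2, hg3⟩ := hg
    unfold cop at hg1
    rw [mem_filter, mem_Icc] at hg1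
    obtain ⟨h1, h2⟩ := hψ g
    have hr : (ψ g).1 ≠ 0 := by
      intro h0
      rw [h0] at h1
      simp at h1
      omega
    have hs : (ψ g).2 ≠ 0 := h2.ne_zero
    have hrd : (ψ g).1 ∣ g :=
      (Dvd.dvd.mul_right (dvd_pow_self (ψ g).1 two_ne_zero) (ψ g).2).trans (dvd_of_eq h1)
    have hsd : (ψ g).2 ∣ g := (Dvd.intro_left ((ψ g).1 ^ 2) rfl).trans (dvd_of_eq h1)
    have hgpos : 0 < g := by omega
    have hrle := Nat.le_of_dvd hgpos hrd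
    have hsle := Nat.le_of_dvd hgpos hsd
    have hrc : (ψ g).1.Coprime (2 * q) := Nat.Coprime.coprime_dvd_left hrd hg1.2
    have hsc : (ψ g).2.Coprime (2 * q) := Nat.Coprime.coprime_dvd_left hsd hg1.2
    constructor
    · have h3 := SML_Bj S j (ψ g).1 (ψ g).2 hr hs
      rw [h1] at h3
      rw [h3]
      simp only [hH]
      have h4 : (g : ℝ) = ((ψ g).1 : ℝ) ^ 2 * ((ψ g).2 : ℝ) := by
        exact_mod_cast h1.symm
      rw [h4, one_div_mul_eq_div, one_div_mul_eq_div, one_div_mul_eq_div, div_div]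
      rw [mul_comm (((ψ g).2 : ℝ))]
    · rw [mem_union, hP1, hP2, mem_product, mem_product]
      by_cases hs1 : (ψ g).2 = 1
      · left
        refine ⟨?_, mem_singleton.2 hs1⟩
        rw [mem_filter]
        refine ⟨?_, ?_⟩
        · unfold cop
          rw [mem_filter, mem_Icc]
          exact ⟨⟨Nat.pos_of_ne_zero hr, hrle.trans hg1.1.2⟩, hrc⟩
        · intro h0
          rw [h0, hs1] at h1
          simp at h1
          omega
      · right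
        refine ⟨?_, ?_⟩
        · unfold cop
          rw [mem_filter, mem_Icc]
          exact ⟨⟨Nat.pos_of_ne_zero hr, hrle.trans hg1.1.2⟩, hrc⟩
        · rw [hT, mem_filter]
          refine ⟨?_, h2, (Nat.pow_le_pow_left hsle 4).trans hg2, hs1⟩
          unfold cop
          rw [mem_filter, mem_Icc]
          exact ⟨⟨Nat.pos_of_ne_zero hs, hsle.trans hg1.1.2⟩, hsc⟩
  have hsum : ∑ g ∈ (cop q K).filter (fun g => g ^ 4 ≤ K ∧ g ≠ 1), 1 / (g : ℝ) * Bj S j g ^ 2 ≤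
      ∑ x ∈ P1, H x + ∑ x ∈ P2, H x := by
    calc ∑ g ∈ (cop q K).filter (fun g => g ^ 4 ≤ K ∧ g ≠ 1), 1 / (g : ℝ) * Bj S j g ^ 2
        = ∑ g ∈ (cop q K).filter (fun g => g ^ 4 ≤ K ∧ g ≠ 1), H (ψ g) :=
          sum_congr rfl fun g hg => (hG g hg).1
      _ = ∑ x ∈ ((cop q K).filter (fun g => g ^ 4 ≤ K ∧ g ≠ 1)).image ψ, H x :=
          (sum_image hinj).symm
      _ ≤ ∑ x ∈ P1 ∪ P2, H x := by
          refine sum_le_sum_of_subset_of_nonneg ?_ (fun x _ _ => hH0 x)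
          intro x hx
          obtain ⟨g, hg, rfl⟩ := mem_image.1 hx
          exact (hG g hg).2
      _ ≤ ∑ x ∈ P1, H x + ∑ x ∈ P2, H x := by
          have h1 := sum_union_inter (s₁ := P1) (s₂ := P2) (f := H)
          have h2 : 0 ≤ ∑ x ∈ P1 ∩ P2, H x := sum_nonneg fun x _ => hH0 x
          linarith
  have hs1 : ∑ x ∈ P1, H x ≤ (8 / Γ * (1 / Z)) * 5 ^ (om j) := by
    rw [hP1, sum_product]
    simp only [sum_singleton, hH]
    have h1 : ∀ a ∈ (cop q K).filter (fun a => a ≠ 1),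
        1 / (a : ℝ) ^ 2 * (1 / ((1 : ℕ) : ℝ) * SML_X S j a 1 ^ 2) ≤
        1 / (a : ℝ) ^ 2 * (4 / Γ * 5 ^ (om j)) := by
      intro a _
      refine mul_le_mul_of_nonneg_left ?_ (by positivity)
      have h2 := SML_up hGC3 hK hΓ hSm' hF h1j hjK hj a 1
      simpa using h2
    refine (sum_le_sum h1).trans ?_
    rw [← sum_mul]
    refine (mul_le_mul_of_nonneg_right (SML_sqZ K hZ hSm) (by positivity)).trans (le_of_eq ?_)
    ring
  have hs2 : ∑ x ∈ P2, H x ≤ 2 * ((4 * (2 * C₀ + 1) / Γ) * 5 ^ (om j) * (j : ℝ) ^ (1 / 10 : ℝ) *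
      (11 * (Z : ℝ) ^ (-(9 / 50) : ℝ))) := by
    rw [hP2, sum_product]
    simp only [hH]
    have h1 : ∀ a ∈ cop q K, ∑ b ∈ T, 1 / (a : ℝ) ^ 2 * (1 / (b : ℝ) * SML_X S j a b ^ 2) ≤
        1 / (a : ℝ) ^ 2 * ((4 * (2 * C₀ + 1) / Γ) * 5 ^ (om j) * (j : ℝ) ^ (1 / 10 : ℝ) *
      (11 * (Z : ℝ) ^ (-(9 / 50) : ℝ))) := by
      intro a _
      rw [← mul_sum]
      exact mul_le_mul_of_nonneg_left (SML_b hSMB hC₀ hK hΓ hZ hSm hSm' hF h1j hjK hj a)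
        (by positivity)
    refine (sum_le_sum h1).trans ?_
    rw [← sum_mul]
    exact mul_le_mul_of_nonneg_right (SML_sq2 q K) (by positivity)
  have hs1' : (8 / Γ * (1 / Z)) * (5 : ℝ) ^ (om j) ≤
      (8 / Γ * (1 / Z)) * (5 ^ (om j) * (j : ℝ) ^ (1 / 10 : ℝ)) := by
    refine mul_le_mul_of_nonneg_left ?_ (by positivity)
    exact le_mul_of_one_le_right (by positivity) hjR
  calc _ ≤ ∑ x ∈ P1, H x + ∑ x ∈ P2, H x := hsum
    _ ≤ (8 / Γ * (1 / Z)) * (5 ^ (om j) * (j : ℝ) ^ (1 / 10 : ℝ)) +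
        2 * ((4 * (2 * C₀ + 1) / Γ) * 5 ^ (om j) * (j : ℝ) ^ (1 / 10 : ℝ) *
      (11 * (Z : ℝ) ^ (-(9 / 50) : ℝ))) := add_le_add (hs1.trans hs1') hs2
    _ = _ := by ring

theorem SML (hGC3 : GC3_stmt) (hWSM : WSM_stmt) (hSMB : SMB_stmt) : SML_stmt := by
  obtain ⟨Z₀, hZ₀⟩ := hWSM
  refine ⟨max (max Z₀ 256) 1, ?_⟩
  intro Z hZ c₀ C₀ q D₀ Γ K S hC₀ hΓ hK hSm hF
  have hZa : Z ≥ Z₀ := (le_max_left _ _).trans ((le_max_left _ _).trans hZ)
  have hZb : 256 ≤ Z := (le_max_right _ _).trans ((le_max_left _ _).trans hZ)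
  have hZ1 : 1 ≤ Z := (le_max_right _ _).trans hZ
  have hSm' : Sm 256 q := fun p hp hp2 => hSm p hp (hp2.trans hZb)
  have hΓR : (0 : ℝ) < Γ := by exact_mod_cast hΓ
  have hZR : (1 : ℝ) ≤ Z := by exact_mod_cast hZ1
  have hZ0 : (0 : ℝ) < Z := by linarith
  have hW := hZ₀ Z hZa q hSm K
  set z : ℝ := (Z : ℝ) ^ (-(9 / 50) : ℝ) with hz
  have hz0 : 0 < z := Real.rpow_pos_of_pos hZ0 _
  have hz1 : (Z : ℝ) ^ (-(1 / 4) : ℝ) ≤ z := Real.rpow_le_rpow_of_exponent_le hZR (by norm_num)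
  have hz2 : 1 / (Z : ℝ) ≤ z := by
    rw [one_div, ← Real.rpow_neg_one]
    exact Real.rpow_le_rpow_of_exponent_le hZR (by norm_num)
  have hz3 : (Z : ℝ) ^ (-(1 / 4) : ℝ) ≤ 1 := Real.rpow_le_one_of_one_le_of_nonpos hZR (by norm_num)
  set E : ℝ := 8 / Γ * (1 / Z) + 2 * ((4 * (2 * C₀ + 1) / Γ) * (11 * z)) with hE
  have hE0 : 0 ≤ E := by
    rw [hE]
    positivity
  have hjm : ∀ j ∈ (cop q K).filter (fun j => j ^ 100 ≤ K), 1 ≤ j ∧ j ≤ K ∧ j.Coprime (2 * q) := by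
    intro j hj
    rw [mem_filter] at hj
    have h2 := hj.1
    unfold cop at h2
    rw [mem_filter, mem_Icc] at h2
    exact ⟨h2.1.1, h2.1.2, h2.2⟩
  have hone : ∀ j : ℕ, 1 ≤ j → (1 : ℝ) ≤ (j : ℝ) ^ (1 / 10 : ℝ) := fun j hj =>
    Real.one_le_rpow (by exact_mod_cast hj) (by norm_num)
  -- one `j`
  have hj1 : ∀ j ∈ (cop q K).filter (fun j => j ^ 100 ≤ K),
      wj j * ∑ g ∈ (cop q K).filter (fun g => g ^ 4 ≤ K ∧ ¬ (j = 1 ∧ g = 1)), 1 / (g : ℝ) * Bj S j g ^ 2 ≤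
      (if j ≠ 1 then 4 / Γ * (wj j * 5 ^ (om j) * (j : ℝ) ^ (1 / 10 : ℝ)) else 0) +
        E * (wj j * 5 ^ (om j) * (j : ℝ) ^ (1 / 10 : ℝ)) := by
    intro j hj
    obtain ⟨h1j, hjK, hjc⟩ := hjm j hj
    have h1 := SML_g hGC3 hSMB hC₀ hK hΓ hZ1 hSm hSm' hF h1j hjK hjc
    rw [← hz, ← hE] at h1
    have h2 : ∑ g ∈ (cop q K).filter (fun g => g ^ 4 ≤ K ∧ ¬ (j = 1 ∧ g = 1)),
        1 / (g : ℝ) * Bj S j g ^ 2 ≤ (if j ≠ 1 then 4 / Γ * (5 ^ (om j) * (j : ℝ) ^ (1 / 10 : ℝ)) else 0) +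
        E * (5 ^ (om j) * (j : ℝ) ^ (1 / 10 : ℝ)) := by
      rw [← sum_filter_add_sum_filter_not ((cop q K).filter (fun g => g ^ 4 ≤ K ∧ ¬ (j = 1 ∧ g = 1)))
        (fun g => g = 1)]
      refine add_le_add ?_ ?_
      · by_cases hj' : j = 1
        · rw [if_neg (by simpa using hj')]
          refine le_of_eq (sum_eq_zero ?_)
          intro g hg
          rw [mem_filter, mem_filter] at hg
          exact absurd ⟨hj', hg.2⟩ hg.1.2.2
        · rw [if_pos hj']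
          have hsub : ((cop q K).filter (fun g => g ^ 4 ≤ K ∧ ¬ (j = 1 ∧ g = 1))).filter
              (fun g => g = 1) ⊆ {1} := by
            intro g hg
            rw [mem_filter] at hg
            rw [mem_singleton]
            exact hg.2
          refine (sum_le_sum_of_subset_of_nonneg hsub (fun g _ _ => by positivity)).trans ?_
          rw [sum_singleton]
          have h3 := SML_Bj S j 1 1 one_ne_zero one_ne_zero
          have h4 := SML_up hGC3 hK hΓ hSm' hF h1j hjK hjc 1 1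
          norm_num at h3
          rw [h3]
          have h5 : 4 / (Γ : ℝ) * 5 ^ (om j) ≤ 4 / Γ * (5 ^ (om j) * (j : ℝ) ^ (1 / 10 : ℝ)) :=
            mul_le_mul_of_nonneg_left (le_mul_of_one_le_right (by positivity) (hone j h1j))
              (by positivity)
          refine le_trans (le_of_eq ?_) (h4.trans h5)
          norm_num
      · refine le_trans ?_ h1
        refine sum_le_sum_of_subset_of_nonneg ?_ (fun g _ _ => by positivity)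
        intro g hg
        rw [mem_filter, mem_filter] at hg
        rw [mem_filter]
        exact ⟨hg.1.1, hg.1.2.1, hg.2⟩
    refine (mul_le_mul_of_nonneg_left h2 (SML_wj j)).trans (le_of_eq ?_)
    by_cases hj' : j = 1
    · rw [if_neg (by simpa using hj'), if_neg (by simpa using hj')]
      ring
    · rw [if_pos hj', if_pos hj']
      ring
  refine (sum_le_sum hj1).trans ?_
  rw [sum_add_distrib, ← mul_sum]
  have hA : ∑ j ∈ (cop q K).filter (fun j => j ^ 100 ≤ K),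
      (if j ≠ 1 then 4 / Γ * (wj j * 5 ^ (om j) * (j : ℝ) ^ (1 / 10 : ℝ)) else 0) ≤ 4 / Γ * z := by
    rw [← sum_filter, ← mul_sum]
    refine mul_le_mul_of_nonneg_left ?_ (by positivity)
    refine le_trans ?_ (hW.trans hz1)
    refine sum_le_sum_of_subset_of_nonneg ?_ (fun j _ _ => mul_nonneg (mul_nonneg (SML_wj j)
      (by positivity)) (by positivity))
    intro j hj
    rw [mem_filter, mem_filter] at hj
    rw [mem_filter]
    exact ⟨hj.1.1, hj.2⟩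
  have hB : ∑ j ∈ (cop q K).filter (fun j => j ^ 100 ≤ K), wj j * 5 ^ (om j) * (j : ℝ) ^ (1 / 10 : ℝ) ≤
      2 := by
    rw [← sum_filter_add_sum_filter_not ((cop q K).filter (fun j => j ^ 100 ≤ K)) (fun j => j = 1)]
    have h1 : ∑ j ∈ ((cop q K).filter (fun j => j ^ 100 ≤ K)).filter (fun j => j = 1),
        wj j * 5 ^ (om j) * (j : ℝ) ^ (1 / 10 : ℝ) ≤ 1 := by
      have hsub : ((cop q K).filter (fun j => j ^ 100 ≤ K)).filter (fun j => j = 1) ⊆ {1} := by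
        intro g hg
        rw [mem_filter] at hg
        rw [mem_singleton]
        exact hg.2
      refine (sum_le_sum_of_subset_of_nonneg hsub (fun j _ _ => mul_nonneg (mul_nonneg (SML_wj j)
        (by positivity)) (by positivity))).trans ?_
      rw [sum_singleton, SML_wj1]
      unfold om
      simp
    have h2 : ∑ j ∈ ((cop q K).filter (fun j => j ^ 100 ≤ K)).filter (fun j => ¬ j = 1),
        wj j * 5 ^ (om j) * (j : ℝ) ^ (1 / 10 : ℝ) ≤ 1 := by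
      refine le_trans ?_ (hW.trans hz3)
      refine sum_le_sum_of_subset_of_nonneg ?_ (fun j _ _ => mul_nonneg (mul_nonneg (SML_wj j)
        (by positivity)) (by positivity))
      intro j hj
      rw [mem_filter, mem_filter] at hj
      rw [mem_filter]
      exact ⟨hj.1.1, hj.2⟩
    linarith
  have hB' := mul_le_mul_of_nonneg_left hB hE0
  have hE' : E ≤ (8 * (2 * C₀ + 1) / Γ) * z + 88 * (2 * C₀ + 1) / Γ * z := by
    rw [hE]
    have h1 : 8 / (Γ : ℝ) * (1 / Z) ≤ (8 * (2 * C₀ + 1) / Γ) * z := by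
      refine mul_le_mul ?_ hz2 (by positivity) (by positivity)
      exact div_le_div_of_nonneg_right (by linarith) hΓR.le
    have h2 : 2 * ((4 * (2 * C₀ + 1) / Γ) * (11 * z)) = 88 * (2 * C₀ + 1) / Γ * z := by ring
    linarith
  have h4 : 4 / (Γ : ℝ) * z ≤ 4 * (2 * C₀ + 1) / Γ * z := by
    refine mul_le_mul_of_nonneg_right ?_ hz0.le
    exact div_le_div_of_nonneg_right (by linarith) hΓR.le
  calc _ ≤ 4 * (2 * C₀ + 1) / Γ * z +
        ((8 * (2 * C₀ + 1) / Γ) * z + 88 * (2 * C₀ + 1) / Γ * z) * 2 := by linarith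
    _ = (196 * (2 * C₀ + 1) / Γ) * z := by ring
    _ ≤ (200 * (2 * C₀ + 1) / Γ) * z := by
        refine mul_le_mul_of_nonneg_right ?_ hz0.le
        refine div_le_div_of_nonneg_right ?_ hΓR.le
        have : 0 ≤ 2 * C₀ + 1 := by linarith
        nlinarith

end Pool.Agent.SU
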